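import Pool.Agent.ZES.StmtsC

set_option autoImplicit false

namespace Pool.Agent.ZES.H77

open Pool.Agent.ZES Filter

theorem dik : DikStmt := by
  intro M
  by_contra hcon
  push Not at hcon
  choose w hw1 hw2 using hcon
  have hle : (hyperfilter ℕ : Filter ℕ) ≤ atTop := Nat.hyperfilter_le_atTop
  have hex : ∀ j : ℕ, ∃ v : Fin M → ℕ, ∀ᶠ J in (hyperfilter ℕ : Filter ℕ), w J j = v := by
    intro j
    have hfin : (Set.Iic (fun _ => 2 * 2 ^ j : Fin M → ℕ)).Finite := Set.finite_Iic _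
    have h1 : ∀ᶠ J in (hyperfilter ℕ : Filter ℕ),
        ∃ v ∈ Set.Iic (fun _ => 2 * 2 ^ j : Fin M → ℕ), w J j = v := by
      have h2 : ∀ᶠ J in (hyperfilter ℕ : Filter ℕ), j ≤ J := hle (eventually_ge_atTop j)
      filter_upwards [h2] with J hJ
      refine ⟨w J j, ?_, rfl⟩
      rw [Set.mem_Iic]
      intro i
      have h3 := hw1 J j hJ
      have h4 := Finset.single_le_sum (f := fun i => w J j i) (fun i _ => Nat.zero_le _)
        (Finset.mem_univ i)
      rw [← h3]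
      exact h4
    obtain ⟨v, -, hv⟩ := (Ultrafilter.eventually_exists_mem_iff hfin).1 h1
    exact ⟨v, hv⟩
  choose v hv using hex
  obtain ⟨i, j, hij, hvij⟩ := wellQuasiOrdered_le v
  have h1 : ∀ᶠ J in (hyperfilter ℕ : Filter ℕ), j ≤ J := hle (eventually_ge_atTop j)
  obtain ⟨J, ⟨hJ1, hJ2⟩, hJ3⟩ := (((hv i).and (hv j)).and h1).exists
  apply hw2 J i j hij hJ3
  rw [hJ1, hJ2]
  exact hvij

end Pool.Agent.ZES.H77
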