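import Pool.Agent.ZES.StmtsF

set_option autoImplicit false

namespace Pool.Agent.ZES.H77

open scoped BigOperators
open Pool.Agent.THS Pool.Agent.ZES MeasureTheory

theorem int1 (m : ℤ) : ∫ t in Set.Icc (0 : ℝ) 1,
    Complex.exp (2 * Real.pi * Complex.I * ((m : ℂ) * ((t : ℝ) : ℂ))) =
      if m = 0 then 1 else 0 := by
  rw [MeasureTheory.integral_Icc_eq_integral_Ioc, ← intervalIntegral.integral_of_le zero_le_one]
  split_ifs with h
  · subst h
    simp
  · have hm : (m : ℂ) ≠ 0 := by exact_mod_cast h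
    have hc : (2 * Real.pi * Complex.I * (m : ℂ)) ≠ 0 :=
      mul_ne_zero (mul_ne_zero (mul_ne_zero two_ne_zero (by exact_mod_cast Real.pi_ne_zero))
        Complex.I_ne_zero) hm
    have e : ∀ t : ℝ, Complex.exp (2 * Real.pi * Complex.I * ((m : ℂ) * ((t : ℝ) : ℂ))) =
        Complex.exp ((2 * Real.pi * Complex.I * (m : ℂ)) * t) := by
      intro t
      rw [mul_assoc (2 * Real.pi * Complex.I)]
    simp_rw [e]
    rw [integral_exp_mul_complex hc]
    have e1 : Complex.exp ((2 * Real.pi * Complex.I * (m : ℂ)) * ((1 : ℝ) : ℂ)) = 1 := by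
      have := Complex.exp_int_mul_two_pi_mul_I m
      rw [← this]
      congr 1
      push_cast
      ring
    rw [e1]
    simp

theorem intg (g : ℕ) (m : Fin g → ℤ) : ∫ t in Set.Icc (0 : Fin g → ℝ) 1,
    Complex.exp (2 * Real.pi * Complex.I * ∑ i, (m i : ℂ) * ((t i : ℝ) : ℂ)) =
      if m = 0 then 1 else 0 := by
  have e : ∀ t : Fin g → ℝ,
      Complex.exp (2 * Real.pi * Complex.I * ∑ i, (m i : ℂ) * ((t i : ℝ) : ℂ)) =
      ∏ i, Complex.exp (2 * Real.pi * Complex.I * ((m i : ℂ) * ((t i : ℝ) : ℂ))) := by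
    intro t
    rw [Finset.mul_sum, Complex.exp_sum]
  simp_rw [e]
  rw [← Set.pi_univ_Icc, volume_pi, Measure.restrict_pi_pi]
  rw [integral_fintype_prod_eq_prod (f := fun i (x : ℝ) =>
    Complex.exp (2 * Real.pi * Complex.I * ((m i : ℂ) * ((x : ℝ) : ℂ))))]
  have h1 : ∀ i : Fin g, ∫ x : ℝ in Set.Icc ((0 : Fin g → ℝ) i) ((1 : Fin g → ℝ) i),
      Complex.exp (2 * Real.pi * Complex.I * ((m i : ℂ) * ((x : ℝ) : ℂ))) =
      if m i = 0 then 1 else 0 := fun i => int1 (m i)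
  rw [Finset.prod_congr rfl (fun i _ => h1 i)]
  split_ifs with h
  · rw [h]
    simp
  · obtain ⟨i, hi⟩ := Function.ne_iff.1 h
    exact Finset.prod_eq_zero (Finset.mem_univ i) (if_neg hi)

theorem norm_e (g : ℕ) (m : Fin g → ℤ) (t : Fin g → ℝ) :
    ‖Complex.exp (2 * Real.pi * Complex.I * ∑ i, (m i : ℂ) * ((t i : ℝ) : ℂ))‖ = 1 := by
  have e : (2 * Real.pi * Complex.I * ∑ i, (m i : ℂ) * ((t i : ℝ) : ℂ)) =
      ((2 * Real.pi * ∑ i, (m i : ℝ) * t i : ℝ) : ℂ) * Complex.I := by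
    push_cast
    ring
  rw [e, Complex.norm_exp_ofReal_mul_I]

theorem fsr : FsrStmt := by
  intro g c hc F hF k
  unfold fc
  have hfun : ∀ t : Fin g → ℝ,
      Complex.exp (-(2 * Real.pi * Complex.I * ∑ i, (k i : ℂ) * ((t i : ℝ) : ℂ)))
        * F (fun i => ((t i : ℝ) : ℂ)) = ∑' n : Fin g → ℤ,
        c n * Complex.exp (2 * Real.pi * Complex.I *
          ∑ i, ((n - k) i : ℂ) * ((t i : ℝ) : ℂ)) := by
    intro t
    rw [hF, ← tsum_mul_left]
    refine tsum_congr (fun n => ?_)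
    rw [mul_left_comm, ← Complex.exp_add]
    congr 2
    have : ∑ i, ((n - k) i : ℂ) * ((t i : ℝ) : ℂ) =
        ∑ i, (n i : ℂ) * ((t i : ℝ) : ℂ) - ∑ i, (k i : ℂ) * ((t i : ℝ) : ℂ) := by
      rw [← Finset.sum_sub_distrib]
      refine Finset.sum_congr rfl (fun i _ => ?_)
      rw [Pi.sub_apply]
      push_cast
      ring
    rw [this]
    ring
  simp_rw [hfun]
  have hcont : ∀ n : Fin g → ℤ, Continuous (fun t : Fin g → ℝ => c n *
      Complex.exp (2 * Real.pi * Complex.I * ∑ i, ((n - k) i : ℂ) * ((t i : ℝ) : ℂ))) := by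
    intro n
    fun_prop
  have hint : ∀ n : Fin g → ℤ, Integrable (fun t : Fin g → ℝ => c n *
      Complex.exp (2 * Real.pi * Complex.I * ∑ i, ((n - k) i : ℂ) * ((t i : ℝ) : ℂ)))
      (volume.restrict (Set.Icc (0 : Fin g → ℝ) 1)) := fun n =>
    (hcont n).continuousOn.integrableOn_compact isCompact_Icc
  have hsum : Summable (fun n : Fin g → ℤ => ∫ t in Set.Icc (0 : Fin g → ℝ) 1, ‖c n *
      Complex.exp (2 * Real.pi * Complex.I * ∑ i, ((n - k) i : ℂ) * ((t i : ℝ) : ℂ))‖) := by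
    have e : ∀ n : Fin g → ℤ, (∫ t in Set.Icc (0 : Fin g → ℝ) 1, ‖c n *
        Complex.exp (2 * Real.pi * Complex.I * ∑ i, ((n - k) i : ℂ) * ((t i : ℝ) : ℂ))‖) =
        (volume.restrict (Set.Icc (0 : Fin g → ℝ) 1)).real Set.univ * ‖c n‖ := by
      intro n
      have : ∀ t : Fin g → ℝ, ‖c n *
          Complex.exp (2 * Real.pi * Complex.I * ∑ i, ((n - k) i : ℂ) * ((t i : ℝ) : ℂ))‖ =
          ‖c n‖ := by
        intro t
        rw [norm_mul, norm_e, mul_one]
      simp_rw [this]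
      rw [integral_const, smul_eq_mul]
    simp_rw [e]
    exact hc.mul_left _
  have h1 := hasSum_integral_of_summable_integral_norm hint hsum
  have h2 : ∀ n : Fin g → ℤ, (∫ t in Set.Icc (0 : Fin g → ℝ) 1, c n *
      Complex.exp (2 * Real.pi * Complex.I * ∑ i, ((n - k) i : ℂ) * ((t i : ℝ) : ℂ))) =
      c n * (if n - k = 0 then 1 else 0) := by
    intro n
    rw [integral_const_mul, intg]
  simp_rw [h2] at h1
  have h3 := hasSum_single (f := fun n : Fin g → ℤ => c n * (if n - k = 0 then (1 : ℂ) else 0)) k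
    (fun n hn => by rw [if_neg (sub_ne_zero.2 hn), mul_zero])
  rw [h1.unique h3, if_pos (sub_self k), mul_one]

end Pool.Agent.ZES.H77
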